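import Pool.Agent.H.MP_092669_al.Dense
import Pool.Agent.H.MP_092669_al.Growth

set_option autoImplicit false

namespace Pool.Agent.Results.MP_092669_al.Yes

open Pool.Agent.H.MP_092669_al

/-- Vertices of the tree are the lists over `Fin 5`; the children of `v` are the `v ++ [x]`.
The infinite iterated wreath product `W` of `A₅` consists of the permutations of the vertices that
fix the root and act on the children of every vertex by an even permutation. There is a finite set
`S` generating a subgroup of `W` which agrees with every element of `W` on every level and has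
subexponential growth. -/
theorem result : ∃ S : Finset (Equiv.Perm (List (Fin 5))),
    (∀ g ∈ Subgroup.closure (S : Set (Equiv.Perm (List (Fin 5)))),
      g [] = [] ∧ ∀ v : List (Fin 5), ∃ π ∈ alternatingGroup (Fin 5),
        ∀ x, g (v ++ [x]) = g v ++ [π x]) ∧
    (∀ h : Equiv.Perm (List (Fin 5)),
      (h [] = [] ∧ ∀ v : List (Fin 5), ∃ π ∈ alternatingGroup (Fin 5),
        ∀ x, h (v ++ [x]) = h v ++ [π x]) →
      ∀ n : ℕ, ∃ g ∈ Subgroup.closure (S : Set (Equiv.Perm (List (Fin 5)))),
        ∀ v : List (Fin 5), v.length = n → g v = h v) ∧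
    Filter.Tendsto (fun r : ℕ =>
      (({g : Equiv.Perm (List (Fin 5)) | ∃ l : List (Equiv.Perm (List (Fin 5))),
        (∀ s ∈ l, s ∈ S ∨ s⁻¹ ∈ S) ∧ l.length ≤ r ∧ l.prod = g}.ncard : ℕ) : ℝ) ^ (1 / (r : ℝ)))
      Filter.atTop (nhds 1) := by
  classical
  have hS : ((({el 0, el 1} : Finset PT) : Set PT)) = {el 0, el 1} := by simp
  refine ⟨{el 0, el 1}, ?_, ?_, ?_⟩
  · rw [hS]
    exact fun g hg => GG_le hg
  · rw [hS]
    intro h hh n
    obtain ⟨g, h1, h2⟩ := dense n h hh
    exact ⟨g, KK_le h1, fun v hv => h2 v hv.le⟩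
  · have hsub : ∀ r : ℕ, {g : PT | ∃ l : List PT,
        (∀ s ∈ l, s ∈ ({el 0, el 1} : Finset PT) ∨ s⁻¹ ∈ ({el 0, el 1} : Finset PT)) ∧
          l.length ≤ r ∧ l.prod = g} ⊆ (BF r : Set PT) := by
      rintro r g ⟨l, h1, h2, rfl⟩
      have : ∃ w : Wd, w.length = l.length ∧ ev w = l.prod := by
        clear h2
        induction l with
        | nil => exact ⟨[], rfl, rfl⟩
        | cons s l ih =>
          obtain ⟨w, a1, a2⟩ := ih fun y hy => h1 y (List.mem_cons_of_mem _ hy)
          have : ∃ j, el j = s := by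
            have := h1 s List.mem_cons_self
            simp only [Finset.mem_insert, Finset.mem_singleton] at this
            rcases this with (h | h) | (h | h)
            · exact ⟨0, h.symm⟩
            · exact ⟨1, h.symm⟩
            · exact ⟨iv 0, by rw [el_iv, ← h, inv_inv]⟩
            · exact ⟨iv 1, by rw [el_iv, ← h, inv_inv]⟩
          obtain ⟨j, rfl⟩ := this
          exact ⟨j :: w, by simp [a1], by rw [ev_cons, a2, List.prod_cons]⟩
      obtain ⟨w, a1, a2⟩ := this
      rw [← a2]
      exact Finset.mem_coe.2 (Finset.mem_image_of_mem _ (mem_allW w r (by omega)))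
    refine tends _ (fun r => ?_) (fun r => ?_)
    · rw [Nat.one_le_iff_ne_zero, ← Nat.pos_iff_ne_zero,
        Set.ncard_pos ((BF r).finite_toSet.subset (hsub r))]
      exact ⟨1, [], by simp, by simp, rfl⟩
    · rw [← Set.ncard_coe_finset]
      exact Set.ncard_le_ncard (hsub r) (BF r).finite_toSet

end Pool.Agent.Results.MP_092669_al.Yes
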